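import Mathlib

namespace Pool.Agent.Results.MP_1328b3_al.Lower

open Equiv

/-- `G ≤ S_n` is Galois closed over a `k`-element set: every `σ` with `a^σ ∈ a^G` for all
`a ∈ k^n` lies in `G`. -/
def Closed (n k : ℕ) (G : Subgroup (Perm (Fin n))) : Prop :=
  ∀ σ : Perm (Fin n),
    (∀ a : Fin n → Fin k, ∃ g ∈ G, (fun i => a (σ i)) = fun i => a (g i)) → σ ∈ G

/-- `G = A_B × L`, or `G` is a proper subdirect product of `S_B × L`. -/
def Form {n : ℕ} (G : Subgroup (Perm (Fin n))) (B : Finset (Fin n))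
    (L : Subgroup (Perm {x // ¬ x ∈ B})) : Prop :=
  G = ((alternatingGroup {x // x ∈ B}).prod L).map (Perm.subtypeCongrHom (· ∈ B)) ∨
    ∃ K : Subgroup (Perm {x // x ∈ B} × Perm {x // ¬ x ∈ B}),
      K < (⊤ : Subgroup (Perm {x // x ∈ B})).prod L ∧ K.map (MonoidHom.fst _ _) = ⊤ ∧
        K.map (MonoidHom.snd _ _) = L ∧ G = K.map (Perm.subtypeCongrHom (· ∈ B))

/-- The statement `T(n,d)`. -/
def T (n d : ℕ) : Prop :=
  ∀ G : Subgroup (Perm (Fin n)), ¬ Closed n (n - d) G ↔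
    ∃ B : Finset (Fin n), Bᶜ.card < d ∧ ∃ L : Subgroup (Perm {x // ¬ x ∈ B}), Form G B L

lemma Form.lift {n : ℕ} {G : Subgroup (Perm (Fin n))} {B : Finset (Fin n)} {L}
    (h : Form G B L) (α : Perm {x // x ∈ B}) (hα : Perm.sign α = 1) :
    ∃ g ∈ G, ∀ x : {x // x ∈ B}, g x = α x := by
  rcases h with h | ⟨K, -, h1, -, h⟩
  · refine ⟨Perm.subtypeCongr α 1, ?_, fun x => ?_⟩
    · rw [h]
      exact ⟨(α, 1), ⟨hα, L.one_mem⟩, rfl⟩
    · exact Perm.subtypeCongr.left_apply_subtype _ _ x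
  · have : α ∈ K.map (MonoidHom.fst _ _) := by rw [h1]; trivial
    obtain ⟨⟨a, b⟩, hab, rfl⟩ := this
    refine ⟨Perm.subtypeCongr a b, ?_, fun x => ?_⟩
    · rw [h]
      exact ⟨(a, b), hab, rfl⟩
    · exact Perm.subtypeCongr.left_apply_subtype _ _ x

abbrev E (d : ℕ) : Fin 2 × Fin d ≃ Fin (2 * d) := finProdFinEquiv

def hf {d : ℕ} (i : Fin (2 * d)) : Fin 2 := ((E d).symm i).1

def p0 (d : ℕ) : Perm (Fin 2 × Fin d) := Equiv.prodCongr (swap 0 1) (Equiv.refl _)

def ch (c : ℤˣ) (e : Fin 2) : ℤˣ := if e = 0 then 1 else c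

lemma ch_add : ∀ (c : ℤˣ) (e e' : Fin 2), ch c (e + e') = ch c e * ch c e' := by decide
lemma ch_inv : ∀ (c : ℤˣ) (e : Fin 2), (ch c e)⁻¹ = ch c e := by decide
lemma two_aux : ∀ x y e : Fin 2, x = y + e → y = x + e := by decide
lemma two_aux' : ∀ x z e : Fin 2, x = x + e → z = x + e → z = x := by decide

def GG (d : ℕ) : Subgroup (Perm (Fin (2 * d))) where
  carrier := {σ | ∃ e : Fin 2, (∀ i, hf (σ i) = hf i + e) ∧
    Perm.sign σ = ch (-Perm.sign (p0 d)) e}
  mul_mem' := by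
    rintro a b ⟨e, ha, ha'⟩ ⟨e', hb, hb'⟩
    exact ⟨e + e', fun i => by rw [Perm.mul_apply, ha, hb, add_assoc, add_comm e' e],
      by rw [map_mul, ha', hb', ch_add]⟩
  one_mem' := ⟨0, fun _ => by simp, by simp [ch]⟩
  inv_mem' := by
    rintro a ⟨e, ha, ha'⟩
    refine ⟨e, fun i => ?_, by rw [map_inv, ha', ch_inv]⟩
    have := ha (a⁻¹ i)
    have h2 : a (a⁻¹ i) = i := by simp
    rw [h2] at this
    exact two_aux _ _ _ this

lemma swap_hf {d : ℕ} {x y : Fin (2 * d)} (h : hf x = hf y) (i : Fin (2 * d)) :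
    hf (swap x y i) = hf i := by
  by_cases h1 : i = x
  · rw [h1, swap_apply_left, h]
  · by_cases h2 : i = y
    · rw [h2, swap_apply_right, h]
    · rw [swap_apply_of_ne_of_ne h1 h2]

lemma notClosed {d : ℕ} (hd : 2 ≤ d) : ¬ Closed (2 * d) (2 * d - d) (GG d) := by
  intro h
  let x0 : Fin (2 * d) := E d (0, ⟨0, by omega⟩)
  let x1 : Fin (2 * d) := E d (0, ⟨1, by omega⟩)
  have hne : x0 ≠ x1 := fun hh => by simpa using (E d).injective hh
  have hx : hf x0 = hf x1 := by simp [hf, x0, x1]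
  have key : swap x0 x1 ∈ GG d := by
    apply h
    intro a
    by_cases hc : ∃ x y, x ≠ y ∧ hf x = hf y ∧ a x = a y
    · obtain ⟨x, y, hxy, h1, h2⟩ := hc
      refine ⟨swap x y * swap x0 x1, ⟨0, fun i => ?_, ?_⟩, funext fun i => ?_⟩
      · rw [Perm.mul_apply, swap_hf h1, swap_hf hx, add_zero]
      · rw [map_mul, Perm.sign_swap hxy, Perm.sign_swap hne]; simp [ch]
      · rw [Perm.mul_apply, Equiv.apply_swap_eq_self h2]
    · have hinj : ∀ b : Fin 2, Function.Bijective (fun j : Fin d => a (E d (b, j))) := by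
        intro b
        rw [Fintype.bijective_iff_injective_and_card]
        refine ⟨fun j j' hj => ?_, by simp; omega⟩
        by_contra hjj
        exact hc ⟨E d (b, j), E d (b, j'), fun hh => hjj (by simpa using (E d).injective hh),
          by simp [hf], hj⟩
      let m : Perm (Fin d) :=
        (Equiv.ofBijective _ (hinj 0)).trans (Equiv.ofBijective _ (hinj 1)).symm
      have hm : ∀ j, a (E d (1, m j)) = a (E d (0, j)) := fun j =>
        Equiv.ofBijective_apply_symm_apply _ (hinj 1) _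
      let P : Perm (Fin 2 × Fin d) := Equiv.prodCongrRight (fun b => if b = 0 then 1 else m)
      have t0 : ∀ j, (P * p0 d * P⁻¹) (0, j) = (1, m j) := by
        intro j
        rw [Perm.mul_apply, Perm.mul_apply]
        have : P⁻¹ (0, j) = (0, j) := by
          rw [Perm.inv_eq_iff_eq]; simp [P]
        rw [this]; simp [P, p0]
      have t1 : ∀ j, (P * p0 d * P⁻¹) (1, m j) = (0, j) := by
        intro j
        rw [Perm.mul_apply, Perm.mul_apply]
        have : P⁻¹ (1, m j) = (1, j) := by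
          rw [Perm.inv_eq_iff_eq]; simp [P]
        rw [this]; simp [P, p0]
      have ht : ∀ i, hf ((E d).permCongr (P * p0 d * P⁻¹) i) = hf i + 1 ∧
          a ((E d).permCongr (P * p0 d * P⁻¹) i) = a i := by
        intro i
        obtain ⟨⟨b, j⟩, rfl⟩ := (E d).surjective i
        rw [Equiv.permCongr_apply, Equiv.symm_apply_apply]
        fin_cases b
        · have := t0 j
          simp only [Fin.zero_eta] at this ⊢
          rw [this, hm]
          simp [hf]
        · obtain ⟨j', rfl⟩ := m.surjective j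
          have := t1 j'
          simp only [Fin.mk_one] at this ⊢
          rw [this, hm]
          simp [hf]
      refine ⟨(E d).permCongr (P * p0 d * P⁻¹) * swap x0 x1, ⟨1, fun i => ?_, ?_⟩,
        funext fun i => ?_⟩
      · rw [Perm.mul_apply, (ht _).1, swap_hf hx]
      · rw [map_mul, Perm.sign_swap hne, Perm.sign_permCongr, map_mul, map_mul, map_inv,
          mul_inv_cancel_comm]
        simp [ch]
      · rw [Perm.mul_apply, (ht _).2]
  obtain ⟨e, h1, h2⟩ := key
  have h3 := h1 x0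
  rw [swap_hf hx] at h3
  have he : e = 0 := by simpa using h3
  rw [he, Perm.sign_swap hne] at h2
  simp [ch] at h2

lemma half_le {d : ℕ} (B : Finset (Fin (2 * d))) (b : Fin 2) :
    (B.filter (fun i => hf i = b)).card ≤ d := by
  have := Finset.card_le_card_of_injOn (s := B.filter (fun i => hf i = b))
    (t := (Finset.univ : Finset (Fin d))) (fun i => ((E d).symm i).2) (fun _ _ => by simp) (by
      intro i hi j hj hij
      simp only [Finset.coe_filter, Set.mem_setOf_eq] at hi hj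
      apply (E d).symm.injective
      exact Prod.ext (hi.2.trans hj.2.symm) hij)
  simpa using this

lemma triple {d : ℕ} (hd : 2 ≤ d) (B : Finset (Fin (2 * d))) (hB : Bᶜ.card < d) :
    ∃ x ∈ B, ∃ y ∈ B, ∃ z ∈ B, x ≠ y ∧ hf x = hf y ∧ hf z ≠ hf y := by
  have h0 := half_le B 0
  have h1 := half_le B 1
  have h2 := Finset.card_filter_add_card_filter_not (s := B) (fun i => hf i = 0)
  have h3 : B.filter (fun i => ¬ hf i = 0) = B.filter (fun i => hf i = 1) :=
    Finset.filter_congr (fun i _ => by generalize hf i = t; revert t; decide)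
  rw [h3] at h2
  rw [Finset.card_compl, Fintype.card_fin] at hB
  by_cases hc : 1 < (B.filter (fun i => hf i = 0)).card
  · obtain ⟨x, hx, y, hy, hxy⟩ := Finset.one_lt_card.1 hc
    obtain ⟨z, hz⟩ := Finset.card_pos.1 (show 0 < (B.filter (fun i => hf i = 1)).card by omega)
    rw [Finset.mem_filter] at hx hy hz
    exact ⟨x, hx.1, y, hy.1, z, hz.1, hxy, hx.2.trans hy.2.symm, by rw [hz.2, hy.2]; decide⟩
  · obtain ⟨x, hx, y, hy, hxy⟩ :=
      Finset.one_lt_card.1 (show 1 < (B.filter (fun i => hf i = 1)).card by omega)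
    obtain ⟨z, hz⟩ := Finset.card_pos.1 (show 0 < (B.filter (fun i => hf i = 0)).card by omega)
    rw [Finset.mem_filter] at hx hy hz
    exact ⟨x, hx.1, y, hy.1, z, hz.1, hxy, hx.2.trans hy.2.symm, by rw [hz.2, hy.2]; decide⟩

lemma notT {d : ℕ} (hd : 2 ≤ d) : ¬ T (2 * d) d := by
  intro h
  obtain ⟨B, hB, L, hF⟩ := (h (GG d)).1 (notClosed hd)
  obtain ⟨x, hx, y, hy, z, hz, hxy, h1, h2⟩ := triple hd B hB
  have hzy : z ≠ y := fun hh => h2 (by rw [hh])
  have hzx : z ≠ x := fun hh => h2 (by rw [hh, h1])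
  have n1 : (⟨x, hx⟩ : {x // x ∈ B}) ≠ ⟨y, hy⟩ := fun hh => hxy (congrArg Subtype.val hh)
  have n2 : (⟨x, hx⟩ : {x // x ∈ B}) ≠ ⟨z, hz⟩ := fun hh => hzx (congrArg Subtype.val hh).symm
  have n3 : (⟨y, hy⟩ : {x // x ∈ B}) ≠ ⟨z, hz⟩ := fun hh => hzy (congrArg Subtype.val hh).symm
  obtain ⟨g, ⟨e, he, -⟩, hg⟩ := hF.lift (swap ⟨x, hx⟩ ⟨z, hz⟩ * swap ⟨x, hx⟩ ⟨y, hy⟩) (by
    rw [map_mul, Perm.sign_swap n1, Perm.sign_swap n2]; simp)
  have g1 : g x = y := by
    have := hg ⟨x, hx⟩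
    rwa [Perm.mul_apply, swap_apply_left, swap_apply_of_ne_of_ne n1.symm n3] at this
  have g2 : g y = z := by
    have := hg ⟨y, hy⟩
    rwa [Perm.mul_apply, swap_apply_right, swap_apply_left] at this
  have e1 := he x
  have e2 := he y
  rw [g1, h1] at e1
  rw [g2] at e2
  exact h2 (two_aux' _ _ _ e1 e2)

theorem result (d N : ℕ) (hd : 1 ≤ d) (hN : d + 2 ≤ N) (h : ∀ n, N ≤ n → T n d) :
    2 * d + 1 ≤ N := by
  by_contra hlt
  exact notT (show 2 ≤ d by omega) (h (2 * d) (by omega))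

end Pool.Agent.Results.MP_1328b3_al.Lower
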